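import Pool.Agent.W140.GG.Upper
import Pool.Agent.W140.GG.Parab

namespace Pool.Agent.Results.MP_b5bf4a_co.ExactValues

open Pool.Agent.W140.GG Finset

/-- Exact values of `f(n, k)` for odd `k`. -/
theorem result (t q m r : ℕ) (hq1 : 1 ≤ q) (hq2 : q ≤ t + 1) (hr : r ≤ 2 * m)
    (h : r = 0 ∨ q = t + 1) (hn : 2 * t + 4 ≤ 2 * m * (t + 1) + r) :
    IsLeast {e : ℕ | e ≤ (2 * m * (t + 1) + r).choose 2 ∧
        Forces (2 * m * (t + 1) + r) (t * (t + 1) + 2 * q + 1) e}
      ((2 * m * (t + 1) + r) * t + 2 * m * q + r + 1) := by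
  have hm : 1 ≤ m := by
    by_contra hcon
    have hm0 : m = 0 := by omega
    subst hm0
    omega
  set n := 2 * m * (t + 1) + r with hndef
  have hcirc : (arcs n t q).card = n * t + 2 * m * q + r := by
    rw [card_arcs]
    rcases h with h | h
    · have : n = 2 * m * (t + 1) := by omega
      rw [this, card_mod t q (2 * m) hq2, h]
      ring
    · have : (range n).filter (fun i => i % (t + 1) < q) = range n := by
        apply filter_true_of_mem
        intro i _
        rw [h]
        exact Nat.mod_lt _ (Nat.succ_pos _)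
      rw [this, card_range, h]
      omega
  refine ⟨⟨?_, ?_⟩, ?_⟩
  · have h1 : n * t + 2 * m * q + r ≤ n * (t + 1) := by
      have : 2 * m * q ≤ 2 * m * (t + 1) := Nat.mul_le_mul_left _ hq2
      have e : n * (t + 1) = n * t + n := by ring
      omega
    rw [Nat.choose_two_right, Nat.le_div_iff_mul_le (by norm_num)]
    obtain ⟨d, hd⟩ : ∃ d, n = 2 * t + 4 + d := ⟨n - (2 * t + 4), by omega⟩
    have h2 : n - 1 = 2 * (t + 1) + 1 + d := by omega
    rw [h2]
    nlinarith
  · intro P hP G hG
    by_contra hcon
    push Not at hcon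
    have : G.edgeSet.ncard ≤ n * t + 2 * m * q + r := upper t q m r hm hr P hP G hcon
    omega
  · rintro e ⟨_, he⟩
    by_contra hlt
    push Not at hlt
    obtain ⟨a, b, c, hab, hk⟩ := he (par n) (genPos_par n) (circ n t q (by omega)) (by
      rw [circ_ncard n t q (by omega) (by omega), hcirc]
      omega)
    have := circ_lines n t q (by omega) (by omega) (by
      rcases h with h | h
      · right
        have : n = 2 * m * (t + 1) := by omega
        rw [this]
        exact Dvd.intro_left _ rfl
      · left; exact h) a b c hab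
    omega

end Pool.Agent.Results.MP_b5bf4a_co.ExactValues
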