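import Pool.Agent.W140.GG.Asym

namespace Pool.Agent.Results.MP_b5bf4a_co.LimitAllK

open Pool.Agent.W140.GG Finset Filter Topology

/-- **The linear asymptotics of `f(n, k)` for every fixed `k`.** Every `k ≥ 1` is of one of the
forms `t (t + 1) + 2 q + 1`, `t (t + 1) + 2 q + 2` with `q ≤ t + 1`, and in both cases
`f(n, k) / n` tends to `t + q / (t + 1)`. -/
theorem result (t q k : ℕ) (hq : q ≤ t + 1)
    (hk : k = t * (t + 1) + 2 * q + 1 ∨ k = t * (t + 1) + 2 * q + 2) :
    Tendsto (fun n : ℕ => (f n k : ℝ) / n) atTop (𝓝 ((t : ℝ) + q / (t + 1))) := by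
  obtain ⟨c, hc⟩ : ∃ c, t * (t + 1) + 2 * q = 2 * c := by
    obtain ⟨z, hz⟩ := Nat.even_mul_succ_self t
    exact ⟨z + q, by omega⟩
  have hcR : (t : ℝ) * (t + 1) + 2 * q = 2 * c := by exact_mod_cast hc
  have ht : (0 : ℝ) < t + 1 := by positivity
  have hlim : (c : ℝ) / (t + 1) + t / 2 = t + q / (t + 1) := by
    have : (c : ℝ) = (t * (t + 1) + 2 * q) / 2 := by linarith
    rw [this]
    field_simp
    ring
  have hk1 : 2 * c + 1 ≤ k := by omega
  have hk2 : k ≤ 2 * c + 1 + 1 := by omega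
  rw [Metric.tendsto_nhds]
  intro ε hε
  have ev1 := upper_asym c t (ε / 4) (by positivity)
  have ev2 : ∀ᶠ n : ℕ in atTop, ((2 * ((t : ℝ) + 1) ^ 2 + 2 * q + 2) / ε) < n :=
    tendsto_natCast_atTop_atTop.eventually_gt_atTop _
  have ev3 : ∀ᶠ n : ℕ in atTop, ((4 : ℝ) / ε) < n :=
    tendsto_natCast_atTop_atTop.eventually_gt_atTop _
  filter_upwards [ev1, ev2, ev3, eventually_ge_atTop (2 * t + 3)] with n hn1 hn2 hn3 hn0
  have hn : (0 : ℝ) < n := by
    have : 0 < n := by omega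
    exact_mod_cast this
  rw [div_lt_iff₀ hε] at hn2 hn3
  -- upper bound
  have hup : (f n k : ℝ) ≤ ((t : ℝ) + q / (t + 1) + ε / 4) * n + 1 := by
    have hnn : 0 ≤ ((t : ℝ) + q / (t + 1) + ε / 4) * n := by positivity
    have hF : Forces n k (⌊((t : ℝ) + q / (t + 1) + ε / 4) * n⌋₊ + 1) := by
      intro P hP G hG
      by_contra hcon
      push Not at hcon
      have h1 := hn1 P hP G (fun a b c' hab => lt_of_lt_of_le (hcon a b c' hab) hk2)
      rw [hlim] at h1
      have h2 : G.edgeSet.ncard ≤ ⌊((t : ℝ) + q / (t + 1) + ε / 4) * n⌋₊ := Nat.le_floor h1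
      omega
    have h1 : f n k ≤ ⌊((t : ℝ) + q / (t + 1) + ε / 4) * n⌋₊ + 1 := Nat.sInf_le hF
    have h2 : ((⌊((t : ℝ) + q / (t + 1) + ε / 4) * n⌋₊ : ℕ) : ℝ) ≤
        ((t : ℝ) + q / (t + 1) + ε / 4) * n := Nat.floor_le hnn
    have h3 : (f n k : ℝ) ≤ ((⌊((t : ℝ) + q / (t + 1) + ε / 4) * n⌋₊ : ℕ) : ℝ) + 1 := by
      exact_mod_cast h1
    linarith
  -- lower bound
  have hlow : ((t : ℝ) + q / (t + 1)) * n - q - (t + 1) ^ 2 ≤ f n k := by
    have hne : {e : ℕ | Forces n k e}.Nonempty := by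
      refine ⟨n.choose 2 + 1, ?_⟩
      intro P hP G hG
      exfalso
      classical
      have h1 : G.edgeSet.ncard ≤ n.choose 2 := by
        have h2 : G.edgeSet.ncard = G.edgeFinset.card := by
          rw [← SimpleGraph.coe_edgeFinset, Set.ncard_coe_finset]
        rw [h2]
        have := SimpleGraph.card_edgeFinset_le_card_choose_two (G := G)
        simpa using this
      omega
    have hmem : Forces n k (f n k) := Nat.sInf_mem hne
    have h0 : 0 < n := by omega
    have hA : ∀ p ∈ arcsL n t q, p.1 < n ∧ 1 ≤ p.2 ∧ p.2 ≤ t + 1 := by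
      intro p hp
      have := mem_arcs.1 (mem_filter.1 hp).1
      omega
    have hlt : (arcsL n t q).card < f n k := by
      by_contra hcon
      push Not at hcon
      obtain ⟨a, b, c', hab, h1⟩ := hmem (par n) (genPos_par n) (gr n h0 (arcsL n t q)) (by
        rw [gr_ncard n t h0 hn0 _ hA]
        exact hcon)
      have h2 := gr_lines n t (t * (t + 1) + 2 * q) h0 (by omega) _ hA
        (fun g _ => card_coversL n t q g) a b c' hab
      omega
    have h1 := card_arcsL n t q hq (by omega)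
    have h2 : (n : ℝ) * t + ((n / (t + 1) : ℕ) : ℝ) * q ≤ (arcsL n t q).card +
        ((t : ℝ) + 1) * (t + 1) := by exact_mod_cast h1
    have h3 : ((arcsL n t q).card : ℝ) ≤ f n k := by exact_mod_cast hlt.le
    have h4 : (n : ℝ) / (t + 1) - 1 ≤ ((n / (t + 1) : ℕ) : ℝ) := by
      have h5 := Nat.lt_div_mul_add (a := n) (by omega : 0 < t + 1)
      have h6 : (n : ℝ) < ((n / (t + 1) : ℕ) : ℝ) * (t + 1) + (t + 1) := by exact_mod_cast h5
      rw [sub_le_iff_le_add, div_le_iff₀ ht]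
      linarith
    have h5 : ((n : ℝ) / (t + 1) - 1) * q ≤ ((n / (t + 1) : ℕ) : ℝ) * q :=
      mul_le_mul_of_nonneg_right h4 (by positivity)
    have h6 : ((t : ℝ) + q / (t + 1)) * n - q = n * t + (n / (t + 1) - 1) * q := by ring
    nlinarith
  rw [Real.dist_eq, abs_lt]
  constructor
  · rw [lt_sub_iff_add_lt, lt_div_iff₀ hn]
    nlinarith
  · rw [sub_lt_iff_lt_add, div_lt_iff₀ hn]
    nlinarith

end Pool.Agent.Results.MP_b5bf4a_co.LimitAllK
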